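import Pool.Agent.W670.ML.Defs2

set_option autoImplicit false

namespace Pool.Agent.W132.ML2

open NumberField Pool.Agent.W670.ML

/-- relDisc in a tower. -/
theorem relDisc_tower (h2 : S_DI) (K A M : Type) [Field K] [NumberField K] [Field A]
    [NumberField A] [Field M] [NumberField M] [Algebra K A] [Algebra K M] [Algebra A M]
    [IsScalarTower K A M] :
    relDisc K M = relDisc A M * relDisc K A ^ Module.finrank A M := by
  have e1 := h2.1 K M
  have e2 := h2.1 A M
  have e3 := h2.1 K A
  have hf : Module.finrank K A * Module.finrank A M = Module.finrank K M :=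
    Module.finrank_mul_finrank K A M
  have hK : (discr K).natAbs ≠ 0 := Int.natAbs_ne_zero.mpr (discr_ne_zero K)
  have hp : (discr K).natAbs ^ Module.finrank K M ≠ 0 := pow_ne_zero _ hK
  rw [e1, e3, mul_pow, ← pow_mul, hf, ← mul_assoc] at e2
  exact Nat.eq_of_mul_eq_mul_right (Nat.pos_of_ne_zero hp) e2

theorem absNorm_map (K B M : Type) [Field K] [NumberField K] [Field B] [NumberField B]
    [Field M] [NumberField M] [Algebra B M] (I : Ideal (𝓞 B)) :
    Ideal.absNorm (I.map (algebraMap (𝓞 B) (𝓞 M))) = Ideal.absNorm I ^ Module.finrank B M := by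
  rw [Ideal.absNorm_algebraMap]
  let _ : Algebra (FractionRing (𝓞 B)) (FractionRing (𝓞 M)) := FractionRing.liftAlgebra _ _
  rw [← IsFractionRing.finrank_eq (𝓞 B) B (𝓞 M) M]

theorem dd (h1 : S_DV) (h2 : S_DI) : S_DD := by
  intro K A B M _ _ _ _ _ _ _ _ _ _ _ _ _ _ _ hG
  have hle := h1 K A B M hG
  have hdv := Ideal.absNorm_dvd_absNorm_of_le hle
  rw [absNorm_map K B M] at hdv
  have hpos : 1 ≤ relDisc K B := h2.2.2 K B
  have hle2 : relDisc A M ≤ relDisc K B ^ Module.finrank B M :=
    Nat.le_of_dvd (pow_pos hpos _) hdv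
  rw [relDisc_tower h2 K A M, mul_comm]
  exact Nat.mul_le_mul_left _ hle2

end Pool.Agent.W132.ML2
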